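import Mathlib.Algebra.Order.Archimedean.Real.Basic
import Mathlib.Algebra.Group.Submonoid.Finite
import Mathlib.Algebra.Order.Floor.Ring
import Mathlib.Algebra.Order.Archimedean.Basic
import Mathlib.Tactic.Linarith
import Mathlib.Tactic.Positivity
import Mathlib.Tactic.Ring
import Mathlib.Tactic.FieldSimp
import Mathlib.GroupTheory.Finiteness

/-!
# The set of even intersection forms of smooth simply connected 4-manifolds

Elementary properties of the submonoids of `ℕ × ℕ` which satisfy the known conditions on the set of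
pairs `(p, q)` such that `2p E₈ ⊕ q H` is the intersection form of a smooth simply connected
4-manifold.
-/

namespace Pool.Agent.TH116.GT

/-- The known properties of the set of pairs `(p, q)` such that the form `2p E₈ ⊕ q H` is realised:
it is a submonoid of `ℕ × ℕ` (connected sums), contains `(0, 1)` (`S² × S²`) and `(1, 3)` (the K3
surface), and `q ≥ 2p + 1` for `p ≥ 1` (Furuta). -/
structure IsSpinGeography (E : AddSubmonoid (ℕ × ℕ)) : Prop where
  hyperbolic : ((0, 1) : ℕ × ℕ) ∈ E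
  k3 : ((1, 3) : ℕ × ℕ) ∈ E
  furuta : ∀ p q : ℕ, 1 ≤ p → (p, q) ∈ E → 2 * p + 1 ≤ q

variable {E : AddSubmonoid (ℕ × ℕ)}

lemma nsmul_mem (hE : (0, 1) ∈ E) (n : ℕ) : ((0, n) : ℕ × ℕ) ∈ E := by
  have h := E.nsmul_mem hE n
  simpa using h

lemma mem_of_le (hE : (0, 1) ∈ E) {p q q' : ℕ} (h : (p, q) ∈ E) (hq : q ≤ q') : (p, q') ∈ E := by
  have h1 := E.add_mem h (nsmul_mem hE (q' - q))
  have e : ((p, q) : ℕ × ℕ) + (0, q' - q) = (p, q') := by
    ext <;> simp <;> omega
  rwa [e] at h1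

lemma three_mem (hk : (1, 3) ∈ E) (p : ℕ) : ((p, 3 * p) : ℕ × ℕ) ∈ E := by
  have h := E.nsmul_mem hk p
  have e : p • ((1, 3) : ℕ × ℕ) = (p, 3 * p) := by
    ext <;> simp [mul_comm]
  rwa [e] at h

open Classical in
/-- The least `q` with `(p, q) ∈ E`. -/
noncomputable def minQ (hk : (1, 3) ∈ E) (p : ℕ) : ℕ :=
  Nat.find (p := fun q => (p, q) ∈ E) ⟨3 * p, three_mem hk p⟩

lemma minQ_mem (hk : (1, 3) ∈ E) (p : ℕ) : (p, minQ hk p) ∈ E := by
  classical
  exact Nat.find_spec (p := fun q => (p, q) ∈ E) ⟨3 * p, three_mem hk p⟩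

lemma minQ_le (hk : (1, 3) ∈ E) {p q : ℕ} (h : (p, q) ∈ E) : minQ hk p ≤ q := by
  classical
  exact Nat.find_min' (p := fun q => (p, q) ∈ E) ⟨3 * p, three_mem hk p⟩ h

/-- If the least slope is attained by `(p₀, q₀)`, then the least `q` increases by `q₀` if a large `p`
increases by `p₀`. -/
theorem minQ_eventually (hk : (1, 3) ∈ E) {p₀ q₀ : ℕ} (hp₀ : 1 ≤ p₀)
    (h₀ : (p₀, q₀) ∈ E) (hmin : ∀ p q : ℕ, (p, q) ∈ E → q₀ * p ≤ q * p₀) :
    ∃ P, ∀ p, P ≤ p → minQ hk (p + p₀) = minQ hk p + q₀ := by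
  classical
  set f := minQ hk with hf
  have hstep : ∀ p, f (p + p₀) ≤ f p + q₀ := fun p =>
    minQ_le hk (by simpa using E.add_mem (minQ_mem hk p) h₀)
  have hlow : ∀ r k, k * q₀ ≤ f (r + k * p₀) := by
    intro r k
    have h := hmin _ _ (minQ_mem hk (r + k * p₀))
    have h2 : q₀ * (r + k * p₀) = q₀ * r + (k * q₀) * p₀ := by ring
    rw [h2] at h
    exact Nat.le_of_mul_le_mul_right (le_trans (Nat.le_add_left _ _) h) hp₀
  -- the sequence f (r + k p₀) - k q₀ is eventually constant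
  have hst : ∀ r, ∃ K, ∀ k, K ≤ k → f (r + (k + 1) * p₀) = f (r + k * p₀) + q₀ := by
    intro r
    set b : ℕ → ℕ := fun k => f (r + k * p₀) - k * q₀ with hb
    have hanti : ∀ k, b (k + 1) ≤ b k := by
      intro k
      have h1 := hstep (r + k * p₀)
      have h2 : r + k * p₀ + p₀ = r + (k + 1) * p₀ := by ring
      rw [h2] at h1
      have h3 : (k + 1) * q₀ = k * q₀ + q₀ := by ring
      simp only [hb]
      omega
    have hanti' : ∀ j k, b (j + k) ≤ b j := by
      intro j k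
      induction k with
      | zero => exact le_rfl
      | succ k ih => exact (hanti (j + k)).trans ih
    obtain ⟨K, hK⟩ : ∃ K, ∀ k, b K ≤ b k := by
      obtain ⟨m, ⟨K, rfl⟩, hm⟩ := WellFounded.has_min (wellFounded_lt (α := ℕ)) (Set.range b)
        ⟨b 0, 0, rfl⟩
      exact ⟨K, fun k => not_lt.1 (hm _ ⟨k, rfl⟩)⟩
    refine ⟨K, fun k hk' => ?_⟩
    obtain ⟨j, rfl⟩ := Nat.exists_eq_add_of_le hk'
    have e1 : b (K + j) = b K := le_antisymm (hanti' K j) (hK _)
    have e2 : b (K + j + 1) = b K := le_antisymm (hanti' K (j + 1)) (hK _)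
    have e3 : b (K + j + 1) = b (K + j) := by rw [e1, e2]
    have l1 := hlow r (K + j)
    have l2 := hlow r (K + j + 1)
    have h3 : (K + j + 1) * q₀ = (K + j) * q₀ + q₀ := by ring
    simp only [hb] at e3
    omega
  choose K hK using hst
  set N := (Finset.range p₀).sup K with hN
  refine ⟨N * p₀, fun p hp => ?_⟩
  set r := p % p₀ with hr
  set k := p / p₀ with hk'
  have hdiv : p = r + k * p₀ := by
    rw [hr, hk', Nat.mod_add_div']
  have hkN : N ≤ k := by
    rw [hk']
    exact (Nat.le_div_iff_mul_le hp₀).2 hp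
  have hKr : K r ≤ k := by
    have : K r ≤ N := Finset.le_sup (f := K) (Finset.mem_range.2 (Nat.mod_lt _ hp₀))
    omega
  have h4 := hK r k hKr
  have e1 : r + (k + 1) * p₀ = p + p₀ := by
    rw [hdiv]
    ring
  rw [e1, ← hdiv] at h4
  exact h4

/-- If the least slope is attained by `(p₀, q₀)`, then the monoid is invariant under the shift by
`(p₀, q₀)` for large `p`. -/
theorem periodic_of_attained (hE : (0, 1) ∈ E) (hk : (1, 3) ∈ E) {p₀ q₀ : ℕ} (hp₀ : 1 ≤ p₀)
    (h₀ : (p₀, q₀) ∈ E) (hmin : ∀ p q : ℕ, (p, q) ∈ E → q₀ * p ≤ q * p₀) :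
    ∃ P, ∀ p q : ℕ, P ≤ p → ((p + p₀, q + q₀) ∈ E ↔ (p, q) ∈ E) := by
  obtain ⟨P, hP⟩ := minQ_eventually hk hp₀ h₀ hmin
  refine ⟨P, fun p q hp => ⟨fun h => ?_, fun h => ?_⟩⟩
  · have h1 := minQ_le hk h
    rw [hP p hp] at h1
    exact mem_of_le hE (minQ_mem hk p) (by omega)
  · simpa using E.add_mem h h₀

/-- If the least slope is attained, then the monoid is finitely generated. -/
theorem fg_of_attained (hE : (0, 1) ∈ E) (hk : (1, 3) ∈ E) {p₀ q₀ : ℕ} (hp₀ : 1 ≤ p₀)
    (h₀ : (p₀, q₀) ∈ E) (hmin : ∀ p q : ℕ, (p, q) ∈ E → q₀ * p ≤ q * p₀) : E.FG := by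
  classical
  obtain ⟨P, hP⟩ := minQ_eventually hk hp₀ h₀ hmin
  set f := minQ hk with hf
  set S : Finset (ℕ × ℕ) := {(0, 1), (p₀, q₀)} ∪
    (Finset.range (P + p₀)).image (fun p => (p, f p)) with hS
  refine ⟨S, le_antisymm ?_ ?_⟩
  · rw [AddSubmonoid.closure_le]
    intro x hx
    simp only [hS, Finset.coe_union, Finset.coe_insert, Finset.coe_singleton, Finset.coe_image,
      Set.mem_union, Set.mem_insert_iff, Set.mem_singleton_iff, Set.mem_image] at hx
    rcases hx with (rfl | rfl) | ⟨p, _, rfl⟩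
    · exact hE
    · exact h₀
    · exact minQ_mem hk p
  · have hgen : ∀ x ∈ S, x ∈ AddSubmonoid.closure (S : Set (ℕ × ℕ)) := fun x hx =>
      AddSubmonoid.subset_closure hx
    have h01 : ((0, 1) : ℕ × ℕ) ∈ AddSubmonoid.closure (S : Set (ℕ × ℕ)) :=
      hgen _ (by simp [hS])
    have h00 : ((p₀, q₀) : ℕ × ℕ) ∈ AddSubmonoid.closure (S : Set (ℕ × ℕ)) :=
      hgen _ (by simp [hS])
    have key : ∀ p, (p, f p) ∈ AddSubmonoid.closure (S : Set (ℕ × ℕ)) := by
      intro p
      induction p using Nat.strong_induction_on with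
      | _ p ih =>
        by_cases hp : p < P + p₀
        · apply hgen
          simp only [hS, Finset.mem_union, Finset.mem_image, Finset.mem_range]
          exact Or.inr ⟨p, hp, rfl⟩
        · rw [not_lt] at hp
          obtain ⟨j, rfl⟩ : ∃ j, p = j + p₀ := ⟨p - p₀, by omega⟩
          have h4 := hP j (by omega)
          have h6 := AddSubmonoid.add_mem _ (ih j (by omega)) h00
          rwa [Prod.mk_add_mk, ← h4] at h6
    intro x hx
    obtain ⟨p, q⟩ := x
    have hle : f p ≤ q := minQ_le hk hx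
    have h7 := AddSubmonoid.add_mem _ (key p) (AddSubmonoid.nsmul_mem _ h01 (q - f p))
    have e : ((p, f p) : ℕ × ℕ) + (q - f p) • ((0, 1) : ℕ × ℕ) = (p, q) := by
      ext <;> simp
      omega
    rwa [e] at h7

/-- If the monoid is finitely generated, then the least slope is attained. -/
theorem attained_of_fg (hk : (1, 3) ∈ E) (hfg : E.FG) :
    ∃ p₀ q₀ : ℕ, 1 ≤ p₀ ∧ (p₀, q₀) ∈ E ∧ ∀ p q : ℕ, (p, q) ∈ E → q₀ * p ≤ q * p₀ := by
  classical
  obtain ⟨S, hS⟩ := hfg
  set T := S.filter (fun x => 1 ≤ x.1) with hT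
  have hSE : ∀ x ∈ S, x ∈ E := fun x hx => by
    rw [← hS]
    exact AddSubmonoid.subset_closure hx
  have hTne : T.Nonempty := by
    by_contra hne
    rw [Finset.not_nonempty_iff_eq_empty] at hne
    have h0 : ∀ x ∈ S, x.1 = 0 := by
      intro x hx
      by_contra h
      have : x ∈ T := by
        rw [hT, Finset.mem_filter]
        exact ⟨hx, Nat.one_le_iff_ne_zero.2 h⟩
      rw [hne] at this
      simp at this
    have h1 : ∀ x ∈ AddSubmonoid.closure (S : Set (ℕ × ℕ)), x.1 = 0 := by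
      intro x hx
      induction hx using AddSubmonoid.closure_induction with
      | mem x hx => exact h0 x hx
      | zero => rfl
      | add x y _ _ hx hy => simp [hx, hy]
    rw [hS] at h1
    simpa using h1 _ hk
  obtain ⟨g, hg, hgmin⟩ := Finset.exists_min_image T (fun x => (x.2 : ℚ) / x.1) hTne
  rw [hT, Finset.mem_filter] at hg
  refine ⟨g.1, g.2, hg.2, hSE g hg.1, ?_⟩
  have key : ∀ x ∈ AddSubmonoid.closure (S : Set (ℕ × ℕ)), g.2 * x.1 ≤ x.2 * g.1 := by
    intro x hx
    induction hx using AddSubmonoid.closure_induction with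
    | mem x hx =>
      by_cases h : 1 ≤ x.1
      · have h2 := hgmin x (by rw [hT, Finset.mem_filter]; exact ⟨hx, h⟩)
        have hg1 : (0 : ℚ) < g.1 := by exact_mod_cast hg.2
        have hx1 : (0 : ℚ) < x.1 := by exact_mod_cast h
        rw [div_le_div_iff₀ hg1 hx1] at h2
        exact_mod_cast h2
      · have : x.1 = 0 := by omega
        rw [this]
        simp
    | zero => simp
    | add x y _ _ hx hy =>
      simp only [Prod.fst_add, Prod.snd_add, mul_add, add_mul]
      omega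
  intro p q hpq
  rw [← hS] at hpq
  exact key _ hpq

end Pool.Agent.TH116.GT
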